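import Mathlib

/-!
# Riemannian metrics on `ℝⁿ` in global coordinates

Christoffel symbols, Ricci curvature, scalar curvature, length of curves, distance, balls,
completeness and volume of a smooth Riemannian metric on `ℝⁿ = (Fin n → ℝ)`.
-/

set_option autoImplicit false

open scoped ContDiff
open MeasureTheory

namespace Pool.Agent.Lib.MP_e1fd79_gt

/-- A smooth Riemannian metric on `ℝⁿ`: `g x i j` is the coefficient `g_{ij}` at the point `x` with
respect to the standard coordinates. -/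
structure RMetric (n : ℕ) where
  /-- the coefficients -/
  g : (Fin n → ℝ) → Matrix (Fin n) (Fin n) ℝ
  smooth : ∀ i j, ContDiff ℝ ∞ (fun x => g x i j)
  symm : ∀ x i j, g x i j = g x j i
  pos : ∀ x v : Fin n → ℝ, v ≠ 0 → 0 < ∑ i, ∑ j, g x i j * v i * v j

/-- The partial derivative `∂_i f` at `x`. -/
noncomputable def pd {n : ℕ} (i : Fin n) (f : (Fin n → ℝ) → ℝ) (x : Fin n → ℝ) : ℝ :=
  fderiv ℝ f x (Pi.single i 1)

namespace RMetric

variable {n : ℕ} (M : RMetric n)

/-- The inner product `g_x(v, w)` of two tangent vectors at `x`. -/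
noncomputable def inner (x v w : Fin n → ℝ) : ℝ := ∑ i, ∑ j, M.g x i j * v i * w j

/-- The Christoffel symbol
`Γ^k_{ij} = (1/2) ∑_l g^{kl} (∂_i g_{jl} + ∂_j g_{il} - ∂_l g_{ij})` at `x`. -/
noncomputable def christoffel (k i j : Fin n) (x : Fin n → ℝ) : ℝ :=
  1 / 2 * ∑ l, (M.g x)⁻¹ k l * (pd i (fun z => M.g z j l) x + pd j (fun z => M.g z i l) x -
    pd l (fun z => M.g z i j) x)

/-- The Ricci tensor
`Ric_{ij} = ∑_k (∂_k Γ^k_{ij} - ∂_j Γ^k_{ik} + ∑_l (Γ^k_{kl} Γ^l_{ij} - Γ^k_{jl} Γ^l_{ik}))`. -/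
noncomputable def ricci (i j : Fin n) (x : Fin n → ℝ) : ℝ :=
  ∑ k, (pd k (M.christoffel k i j) x - pd j (M.christoffel k i k) x +
    ∑ l, (M.christoffel k k l x * M.christoffel l i j x -
      M.christoffel k j l x * M.christoffel l i k x))

/-- The scalar curvature `R = ∑ g^{ij} Ric_{ij}`. -/
noncomputable def scal (x : Fin n → ℝ) : ℝ := ∑ i, ∑ j, (M.g x)⁻¹ i j * M.ricci i j x

/-- The lower Ricci bound `Ric ≥ -lam`: `Ric(v, v) ≥ -lam g(v, v)` for all tangent vectors. -/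
def RicciGE (lam : ℝ) : Prop :=
  ∀ x v : Fin n → ℝ, -lam * M.inner x v v ≤ ∑ i, ∑ j, M.ricci i j x * v i * v j

/-- The length of the curve `c`, restricted to `[0, 1]`. -/
noncomputable def length (c : ℝ → Fin n → ℝ) : ℝ :=
  ∫ s in (0 : ℝ)..1, √(M.inner (c s) (deriv c s) (deriv c s))

/-- The Riemannian distance: the infimum of the lengths of all `C¹` curves from `p` to `q`. -/
noncomputable def dist (p q : Fin n → ℝ) : ℝ :=
  sInf {L : ℝ | ∃ c : ℝ → Fin n → ℝ, ContDiff ℝ 1 c ∧ c 0 = p ∧ c 1 = q ∧ M.length c = L}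

/-- The open geodesic ball of radius `r` about `p`. -/
def ball (p : Fin n → ℝ) (r : ℝ) : Set (Fin n → ℝ) := {x | M.dist p x < r}

/-- The Riemannian manifold `(ℝⁿ, g)` is complete: every Cauchy sequence for the Riemannian
distance converges. -/
def Complete : Prop :=
  ∀ u : ℕ → Fin n → ℝ, (∀ ε > 0, ∃ K, ∀ i ≥ K, ∀ j ≥ K, M.dist (u i) (u j) < ε) →
    ∃ x, ∀ ε > 0, ∃ K, ∀ i ≥ K, M.dist (u i) x < ε

/-- The Riemannian volume measure `√(det g) dx`. -/
noncomputable def vol : Measure (Fin n → ℝ) :=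
  (volume : Measure (Fin n → ℝ)).withDensity (fun x => ENNReal.ofReal √((M.g x).det))

end RMetric

end Pool.Agent.Lib.MP_e1fd79_gt
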