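import Pool.Agent.Lib.MP_e1fd79_gt.Defs

/-!
# Interfaces of the modules

The metric on `ℝ^{m+3}` with coordinates `x 0, x 1` (a plane), `x 2` and `m` flat coordinates:
`g = dx² + (mu/N) (x0 dx0 + x1 dx1)² + (N - 1) dx2²`, where `mu` and `N = 1 - t mu` are functions of
`t = x0² + x1²`.
-/

set_option autoImplicit false

open scoped ContDiff Topology
open MeasureTheory Filter

namespace Pool.Agent.Lib.MP_e1fd79_gt

/-- The first two coordinates of `x`, the others replaced by zero. -/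
def XX {m : ℕ} (x : Fin (m + 3) → ℝ) (i : Fin (m + 3)) : ℝ := if i.val < 2 then x i else 0

/-- The indicator of the index `2`. -/
def EE {m : ℕ} (i : Fin (m + 3)) : ℝ := if i.val = 2 then 1 else 0

/-- `t = x0² + x1²` -/
def tt {m : ℕ} (x : Fin (m + 3) → ℝ) : ℝ := x 0 ^ 2 + x 1 ^ 2

/-- The sum of the squares of the last `m` coordinates. -/
def zz {m : ℕ} (v : Fin (m + 3) → ℝ) : ℝ := ∑ i : Fin m, v i.succ.succ.succ ^ 2

/-- A smooth profile. -/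
structure Prof where
  /-- the function `mu` of `t` -/
  mu : ℝ → ℝ
  smooth : ∀ t, 0 ≤ t → ContDiffAt ℝ ∞ mu t
  pos : ∀ t, 0 ≤ t → 0 < 1 - t * mu t

/-- `N = 1 - t mu` -/
def Prof.N (P : Prof) (t : ℝ) : ℝ := 1 - t * P.mu t

/-- The matrix of the metric. -/
noncomputable def Prof.gM (P : Prof) {m : ℕ} (x : Fin (m + 3) → ℝ) :
    Matrix (Fin (m + 3)) (Fin (m + 3)) ℝ := fun i j =>
  (if i = j then 1 else 0) + P.mu (tt x) / P.N (tt x) * (XX x i * XX x j) +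
    (P.N (tt x) - 1) * (EE i * EE j)

/-- The quadratic form of the metric. -/
noncomputable def Prof.qf (P : Prof) {m : ℕ} (x v : Fin (m + 3) → ℝ) : ℝ :=
  v 0 ^ 2 + v 1 ^ 2 + P.mu (tt x) / P.N (tt x) * (x 0 * v 0 + x 1 * v 1) ^ 2 +
    P.N (tt x) * v 2 ^ 2 + zz v

/-! ## Modules about the metric -/

/-- Module QF (about 60 lines): the quadratic form of `gM`. -/
def QFStatement : Prop := ∀ (P : Prof) (m : ℕ) (x v : Fin (m + 3) → ℝ),
  ∑ i, ∑ j, P.gM x i j * v i * v j = P.qf x v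

/-- Module MET (about 80 lines): the metric exists (smooth, symmetric, positive definite). -/
def MetStatement : Prop := ∀ (P : Prof) (m : ℕ), ∃ M : RMetric (m + 3), M.g = P.gM

/-- Module VOL (about 60 lines): the determinant is `1`. -/
def VolStatement : Prop := ∀ (P : Prof) (m : ℕ) (M : RMetric (m + 3)), M.g = P.gM →
  M.vol = volume

/-- Module RIC (about 200 lines): the Ricci tensor and the scalar curvature. -/
def RicStatement : Prop := ∀ (P : Prof) (m : ℕ) (M : RMetric (m + 3)), M.g = P.gM →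
  ∀ x : Fin (m + 3) → ℝ, ∀ a b : ℝ,
    a = -2 * (tt x * deriv (deriv P.N) (tt x) + deriv P.N (tt x)) →
    b = 2 * deriv (deriv P.N) (tt x) →
    (∀ v : Fin (m + 3) → ℝ, ∑ i, ∑ j, M.ricci i j x * v i * v j =
      a * (P.qf x v - zz v) + b * (x 0 * v 1 - x 1 * v 0) ^ 2) ∧
    M.scal x = 3 * a + tt x * b

/-! ## General modules -/

/-- Module LIP (about 80 lines): functions with bounded differential are Lipschitz for the
Riemannian distance. -/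
def LipStatement : Prop := ∀ (n : ℕ) (M : RMetric n) (w : (Fin n → ℝ) → ℝ) (L : ℝ), 0 ≤ L →
  ContDiff ℝ 1 w → (∀ x v, (fderiv ℝ w x v) ^ 2 ≤ L ^ 2 * M.inner x v v) →
  ∀ p q, |w q - w p| ≤ L * M.dist p q

/-- Module SEG (about 60 lines): convergence in `ℝⁿ` implies convergence for the Riemannian
distance (lengths of straight segments). -/
def SegStatement : Prop := ∀ (n : ℕ) (M : RMetric n) (u : ℕ → Fin n → ℝ) (x : Fin n → ℝ),
  Tendsto u atTop (𝓝 x) → ∀ ε > 0, ∃ K, ∀ i ≥ K, M.dist (u i) x < ε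

/-! ## The geometry of the metric under bounds on the profile -/

/-- Module TUBE (about 120 lines): the unit ball about `p = (√t0, 0, ..., 0)` contains a tube.
Proof: one explicit `C¹` curve `p + σ(2s) • a + σ(2s-1) • b`, `a = (0,0,x 2,0..)`,
`b = x - p - a`, `σ(s) = ∫_0^s max 0 (6 r (1 - r)) dr`. -/
def TubeStatement : Prop := ∀ (P : Prof) (m : ℕ) (M : RMetric (m + 3)), M.g = P.gM →
  ∀ q t0 Y : ℝ, 0 < q → q ≤ 1 → (∀ t, 0 ≤ t → q ≤ P.N t) → 0 ≤ t0 → t0 ≤ q / 64 → 0 ≤ Y →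
    P.N t0 * Y ^ 2 ≤ 1 / 4 →
  ∀ x : Fin (m + 3) → ℝ, tt x ≤ t0 → |x 2| ≤ Y → zz x ≤ 1 / 64 →
    M.dist (fun i => if i.val = 0 then √t0 else 0) x < 1

/-- Module LIPF (about 150 lines): four Lipschitz functions. -/
def LipFStatement : Prop := ∀ (P : Prof) (m : ℕ) (M : RMetric (m + 3)), M.g = P.gM →
  ∀ q K : ℝ, 0 < q → q ≤ 1 → 1 ≤ K → (∀ t, 0 ≤ t → q ≤ P.N t) →
    (∀ t, 0 ≤ t → t * P.N t ≤ K * (q + t) ^ 2) → (∀ t, 0 ≤ t → P.N t ≤ K * (1 + t)) →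
  ∀ x y : Fin (m + 3) → ℝ,
    |Real.log (q + tt x) - Real.log (q + tt y)| ≤ 2 * √K * M.dist x y ∧
    |x 0 / √(1 + tt x) - y 0 / √(1 + tt y)| ≤ 2 * √K * M.dist x y ∧
    |x 1 / √(1 + tt x) - y 1 / √(1 + tt y)| ≤ 2 * √K * M.dist x y ∧
    |x 2 - y 2| ≤ 1 / √q * M.dist x y ∧
    (∀ i : Fin (m + 3), 3 ≤ i.val → |x i - y i| ≤ M.dist x y)

/-- Module COMP (about 100 lines): completeness, from LIPF and SEG. -/
def CompStatement : Prop := LipFStatement → SegStatement →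
  ∀ (P : Prof) (m : ℕ) (M : RMetric (m + 3)), M.g = P.gM →
  ∀ q K : ℝ, 0 < q → q ≤ 1 → 1 ≤ K → (∀ t, 0 ≤ t → q ≤ P.N t) →
    (∀ t, 0 ≤ t → t * P.N t ≤ K * (q + t) ^ 2) → (∀ t, 0 ≤ t → P.N t ≤ K * (1 + t)) →
  M.Complete

/-! ## The logarithmic profile -/

/-- `δ²` -/
noncomputable def dd (lam q : ℝ) : ℝ := q / lam * Real.exp (2 - 2 / q)

/-- Module PROF (about 120 lines): the logarithmic profile exists
(`mu t = q/(2δ²) ℓ(t/δ²) - lam/2` with `ℓ = dslope (fun z => log (1 + z)) 0`), with its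
derivatives and its bounds. -/
def ProfStatement : Prop := ∀ lam q : ℝ, 0 < lam → 0 < q → q ≤ 1 → ∃ P : Prof,
  (∀ t, 0 ≤ t → P.N t = 1 + lam / 2 * t - q / 2 * Real.log (1 + t / dd lam q)) ∧
  (∀ t, 0 ≤ t → deriv P.N t = lam / 2 - q / 2 / (t + dd lam q)) ∧
  (∀ t, 0 ≤ t → deriv (deriv P.N) t = q / 2 / (t + dd lam q) ^ 2) ∧
  (∀ t, 0 ≤ t → q ≤ P.N t) ∧
  (P.N (q / 64) ≤ (1 + lam / 128 + 32 / lam) * q) ∧
  (∀ t, 0 ≤ t → t * P.N t ≤ (1 + lam + 1 / lam) * (q + t) ^ 2) ∧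
  (∀ t, 0 ≤ t → P.N t ≤ (1 + lam + 1 / lam) * (1 + t))

/-! ## The integral -/

/-- Module INT (about 150 lines): the integral of `q / (t + δ²)` over the tube, by dyadic boxes
`|x 0|, |x 1| ≤ a 2^{-k}`. -/
def IntStatement : Prop := ∀ (m k : ℕ) (t0 d Y ε : ℝ), 0 < t0 → 0 < d → 0 ≤ Y → 0 ≤ ε →
  4 ^ k * d ≤ t0 / 2 →
  (k : ℝ) * (2 * Y) * (2 * ε) ^ m ≤
    ∫ x in {x : Fin (m + 3) → ℝ | tt x ≤ t0 ∧ |x 2| ≤ Y ∧ ∀ i, 3 ≤ i.val → |x i| ≤ ε},
      1 / (tt x + d)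

/-- Module BOX (about 40 lines): volume of a box. -/
def BoxStatement : Prop := ∀ (m : ℕ) (T Y : ℝ), 0 ≤ T → 0 ≤ Y →
  volume {x : Fin (m + 3) → ℝ | tt x ≤ T ∧ |x 2| ≤ Y ∧ ∀ i, 3 ≤ i.val → |x i| ≤ 1} ≤
    ENNReal.ofReal (4 * T * (2 * Y) * 2 ^ m)

/-! ## The theorem -/

/-- The final statement. -/
def MainStatement : Prop := ∀ (n : ℕ), 3 ≤ n → ∀ lam : ℝ, 0 < lam → ∀ C : ℝ,
  ∃ M : RMetric n, M.Complete ∧ M.RicciGE lam ∧ ∃ p : Fin n → ℝ,
    IntegrableOn M.scal (M.ball p 1) M.vol ∧ C < ∫ x in M.ball p 1, M.scal x ∂M.vol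

end Pool.Agent.Lib.MP_e1fd79_gt
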